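import Mathlib

/-!
# Fixed points of weakly contractive set-valued maps (question of Amini-Harandi, 2010)

We answer the question affirmatively: every weakly contractive map `T : X → CB(X)` on a nonempty
complete metric space has a fixed point; no compactness of the values `T x` is needed.
-/

set_option autoImplicit false

open Metric Set Filter Topology
open scoped NNReal

namespace Pool.Agent.Results.MP_e93574_an.WeaklyContractive

universe u

/-- The class `Γ`: continuous, nondecreasing, subadditive maps `γ : [0,∞) → [0,∞)` whose zero set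
is exactly `{0}`. -/
structure IsGamma (γ : ℝ≥0 → ℝ≥0) : Prop where
  continuous : Continuous γ
  monotone : Monotone γ
  subadditive : ∀ s t : ℝ≥0, γ (s + t) ≤ γ s + γ t
  preimage_zero : γ ⁻¹' {0} = {0}

/-- The class `𝒜`: all maps `θ : [0,∞) → [0,∞)` for which there are `ε₀ > 0` and `γ ∈ Γ` such that
`θ t ≤ ε₀` implies `γ t ≤ θ t`, for every `t`. -/
def IsClassA (θ : ℝ≥0 → ℝ≥0) : Prop :=
  ∃ ε₀ : ℝ≥0, 0 < ε₀ ∧ ∃ γ : ℝ≥0 → ℝ≥0, IsGamma γ ∧ ∀ t : ℝ≥0, θ t ≤ ε₀ → γ t ≤ θ t

/-- `CB X`: the nonempty closed bounded subsets of `X`. -/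
def CB (X : Type u) [MetricSpace X] : Type u :=
  {A : Set X // A.Nonempty ∧ IsClosed A ∧ Bornology.IsBounded A}

/-- `T : X → CB X` is weakly contractive with respect to `θ`:
`H(Tx, Ty) ≤ d(x, y) - θ(d(x, y))` for all `x, y`, where `H` is the Hausdorff metric. -/
def IsWeaklyContractive {X : Type u} [MetricSpace X] (θ : ℝ≥0 → ℝ≥0) (T : X → CB X) : Prop :=
  ∀ x y : X, hausdorffDist (T x).1 (T y).1 ≤ dist x y - ((θ (nndist x y) : ℝ≥0) : ℝ)

/-- The key point: a map of class `𝒜` has a linear lower bound on every bounded interval. -/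
lemma linear_lower_bound {θ : ℝ≥0 → ℝ≥0} (hθ : IsClassA θ) (D : ℝ) :
    ∃ c : ℝ, 0 < c ∧ c ≤ 1 ∧ ∀ t : ℝ≥0, (t : ℝ) ≤ D → c * t ≤ θ t := by
  obtain ⟨ε₀, hε₀, γ, hγ, h⟩ := hθ
  have hγ1 : 0 < γ 1 := by
    rw [pos_iff_ne_zero]
    intro h0
    have : (1 : ℝ≥0) ∈ γ ⁻¹' {0} := by simpa using h0
    rw [hγ.preimage_zero] at this
    simp at this
  -- subadditivity for multiples
  have hmul : ∀ (n : ℕ) (t : ℝ≥0), γ ((n + 1 : ℕ) * t) ≤ (n + 1 : ℕ) * γ t := by
    intro n t
    induction n with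
    | zero => simp
    | succ n ih =>
      have e1 : ((n + 1 + 1 : ℕ) : ℝ≥0) * t = ((n + 1 : ℕ) : ℝ≥0) * t + t := by
        push_cast; ring
      have e2 : ((n + 1 + 1 : ℕ) : ℝ≥0) * γ t = ((n + 1 : ℕ) : ℝ≥0) * γ t + γ t := by
        push_cast; ring
      rw [e1, e2]
      exact (hγ.subadditive _ _).trans (by gcongr)
  set E : ℝ := max D 1 with hE
  have hE1 : 1 ≤ E := le_max_right _ _
  have hE0 : 0 < E := by linarith
  set m : ℝ := min (ε₀ : ℝ) (γ 1 : ℝ) with hm
  have hm0 : 0 < m := lt_min (by exact_mod_cast hε₀) (by exact_mod_cast hγ1)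
  refine ⟨min (m / (2 * E)) 1, lt_min (by positivity) one_pos, min_le_right _ _, ?_⟩
  intro t ht
  have htE : (t : ℝ) ≤ E := ht.trans (le_max_left _ _)
  have ht0 : 0 ≤ (t : ℝ) := t.2
  -- it suffices to bound from below by `m / (2 E) * t`
  have hred : min (m / (2 * E)) 1 * (t : ℝ) ≤ m / (2 * E) * t := by
    gcongr
    exact min_le_left _ _
  refine hred.trans ?_
  have hbound1 : m / (2 * E) * t ≤ m / 2 := by
    have : m / (2 * E) * t = m / 2 * (t / E) := by field_simp
    rw [this]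
    have h1 : (t : ℝ) / E ≤ 1 := by rw [div_le_one hE0]; exact htE
    nlinarith
  rcases le_or_gt (θ t) ε₀ with hcase | hcase
  · have hγθ : γ t ≤ θ t := h t hcase
    refine le_trans ?_ (by exact_mod_cast hγθ : ((γ t : ℝ≥0) : ℝ) ≤ θ t)
    rcases le_or_gt 1 t with h1t | h1t
    · -- large `t`
      have : ((γ 1 : ℝ≥0) : ℝ) ≤ γ t := by exact_mod_cast hγ.monotone h1t
      have hmγ : m ≤ γ 1 := min_le_right _ _
      linarith
    · -- small `t`
      rcases eq_or_lt_of_le ht0 with h0 | h0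
      · rw [← h0]; simp
      obtain ⟨n, hn1, hn2⟩ : ∃ n : ℕ, 1 ≤ ((n + 1 : ℕ) : ℝ) * t ∧ (n : ℝ) * t ≤ 1 := by
        refine ⟨⌊1 / (t : ℝ)⌋₊, ?_, ?_⟩
        · have := Nat.lt_floor_add_one (1 / (t : ℝ))
          have h2 : 1 / (t : ℝ) * t = 1 := by field_simp
          push_cast
          nlinarith
        · have := Nat.floor_le (a := 1 / (t : ℝ)) (by positivity)
          have h2 : 1 / (t : ℝ) * t = 1 := by field_simp
          nlinarith
      have hA : ((γ 1 : ℝ≥0) : ℝ) ≤ ((n + 1 : ℕ) : ℝ) * γ t := by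
        have h1 : (1 : ℝ≥0) ≤ ((n + 1 : ℕ) : ℝ≥0) * t := by exact_mod_cast hn1
        exact_mod_cast (hγ.monotone h1).trans (hmul n t)
      have hB : ((n + 1 : ℕ) : ℝ) * t ≤ 2 := by
        have : (t : ℝ) ≤ 1 := by exact_mod_cast h1t.le
        push_cast; nlinarith
      have hγt : (0 : ℝ) ≤ γ t := (γ t).2
      have hmγ : m ≤ γ 1 := min_le_right _ _
      -- `m * t ≤ (n+1) t γ t ≤ 2 γ t`
      have hC : m * t ≤ 2 * γ t := by
        calc m * t ≤ (((n + 1 : ℕ) : ℝ) * γ t) * t := by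
              apply mul_le_mul_of_nonneg_right (hmγ.trans hA) ht0
          _ = (((n + 1 : ℕ) : ℝ) * t) * γ t := by ring
          _ ≤ 2 * γ t := by gcongr
      have hD : m / (2 * E) * t ≤ m * t / 2 := by
        have : m / (2 * E) * t = (m * t / 2) * (1 / E) := by field_simp
        rw [this]
        have h1 : 1 / E ≤ 1 := by rw [div_le_one hE0]; exact hE1
        have : 0 ≤ m * t / 2 := by positivity
        nlinarith
      linarith
  · have h1 : (ε₀ : ℝ) < θ t := by exact_mod_cast hcase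
    have hmε : m ≤ ε₀ := min_le_left _ _
    linarith

/-- **Affirmative answer to Q1.** Let `X` be a nonempty complete metric space, `θ ∈ 𝒜`, and let
`T : X → CB(X)` be weakly contractive with respect to `θ`. Then `T` has a fixed point. -/
theorem result (X : Type u) [MetricSpace X] [CompleteSpace X] [Nonempty X]
    (θ : ℝ≥0 → ℝ≥0) (hθ : IsClassA θ) (T : X → CB X) (hT : IsWeaklyContractive θ T) :
    ∃ x : X, x ∈ (T x).1 := by
  by_contra hno
  push Not at hno
  obtain ⟨a₀⟩ := ‹Nonempty X›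
  obtain ⟨b₀, hb₀⟩ := (T a₀).2.1
  set D : ℝ := dist a₀ b₀ with hD
  obtain ⟨c, hc0, hc1, hc⟩ := linear_lower_bound hθ D
  -- finiteness of the Hausdorff distance
  have hfin : ∀ x y : X, hausdorffEDist (T x).1 (T y).1 ≠ ⊤ := fun x y =>
    hausdorffEDist_ne_top_of_nonempty_of_bounded (T x).2.1 (T y).2.1 (T x).2.2.2 (T y).2.2.2
  have hcontr : ∀ x y : X, dist x y ≤ D →
      hausdorffDist (T x).1 (T y).1 ≤ (1 - c) * dist x y := by
    intro x y hxy
    have h1 := hT x y
    have h2 := hc (nndist x y) (by simpa using hxy)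
    rw [coe_nndist] at h2
    linarith
  -- one step of the iteration
  have hstep : ∀ p : {p : X × X // p.2 ∈ (T p.1).1 ∧ dist p.1 p.2 ≤ D},
      ∃ q : {p : X × X // p.2 ∈ (T p.1).1 ∧ dist p.1 p.2 ≤ D},
        q.1.1 = p.1.2 ∧ dist q.1.1 q.1.2 ≤ (1 - c / 2) * dist p.1.1 p.1.2 := by
    rintro ⟨⟨a, b⟩, hab, hd⟩
    simp only at hab hd
    have hne : a ≠ b := by
      rintro rfl
      exact hno a hab
    have hpos : 0 < dist a b := dist_pos.2 hne
    have hlt : hausdorffDist (T a).1 (T b).1 < (1 - c / 2) * dist a b := by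
      have := hcontr a b hd
      nlinarith
    obtain ⟨b', hb', hbb'⟩ := exists_dist_lt_of_hausdorffDist_lt hab hlt (hfin a b)
    refine ⟨⟨(b, b'), hb', ?_⟩, rfl, hbb'.le⟩
    have : (1 - c / 2) * dist a b ≤ dist a b := by nlinarith
    exact (hbb'.le.trans this).trans hd
  choose F hF1 hF2 using hstep
  let P : ℕ → {p : X × X // p.2 ∈ (T p.1).1 ∧ dist p.1 p.2 ≤ D} := fun n =>
    Nat.rec ⟨(a₀, b₀), hb₀, le_rfl⟩ (fun _ p => F p) n
  have hP : ∀ n, P (n + 1) = F (P n) := fun n => rfl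
  let x : ℕ → X := fun n => (P n).1.1
  have hx1 : ∀ n, x (n + 1) = (P n).1.2 := fun n => by
    change (P (n + 1)).1.1 = _
    rw [hP, hF1]
  have hxT : ∀ n, x (n + 1) ∈ (T (x n)).1 := fun n => by
    rw [hx1]; exact (P n).2.1
  have hgeo : ∀ n, dist (x n) (x (n + 1)) ≤ D * (1 - c / 2) ^ n := by
    intro n
    induction n with
    | zero => rw [hx1]; simp [x, P, hD]
    | succ n ih =>
      have h1 : dist (x (n + 1)) (x (n + 1 + 1)) ≤ (1 - c / 2) * dist (x n) (x (n + 1)) := by
        rw [hx1 (n + 1), hx1 n]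
        have := hF2 (P n)
        rw [← hP, ← hx1 n] at this
        rw [← hx1 n]
        exact this
      calc dist (x (n + 1)) (x (n + 1 + 1)) ≤ (1 - c / 2) * dist (x n) (x (n + 1)) := h1
        _ ≤ (1 - c / 2) * (D * (1 - c / 2) ^ n) := by
            apply mul_le_mul_of_nonneg_left ih
            linarith
        _ = D * (1 - c / 2) ^ (n + 1) := by ring
  have hcauchy : CauchySeq x := cauchySeq_of_le_geometric (1 - c / 2) D (by linarith) hgeo
  obtain ⟨z, hz⟩ := cauchySeq_tendsto_of_complete hcauchy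
  -- the limit is a fixed point
  have hinf : infDist z (T z).1 = 0 := by
    have hle : ∀ n, infDist z (T z).1 ≤ dist z (x (n + 1)) + dist (x n) z := by
      intro n
      have h1 : infDist z (T z).1 ≤ infDist (x (n + 1)) (T z).1 + dist z (x (n + 1)) :=
        infDist_le_infDist_add_dist
      have h2 : infDist (x (n + 1)) (T z).1 ≤ hausdorffDist (T (x n)).1 (T z).1 :=
        infDist_le_hausdorffDist_of_mem (hxT n) (hfin _ _)
      have h3 : hausdorffDist (T (x n)).1 (T z).1 ≤ dist (x n) z := by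
        have h4 := hT (x n) z
        have h5 : (0 : ℝ) ≤ θ (nndist (x n) z) := (θ _).2
        linarith
      linarith
    have hlim : Tendsto (fun n => dist z (x (n + 1)) + dist (x n) z) atTop (𝓝 (0 + 0)) := by
      refine Tendsto.add ?_ ?_
      · have := (tendsto_const_nhds (x := z)).dist (hz.comp (tendsto_add_atTop_nat 1))
        simpa using this
      · have := hz.dist (tendsto_const_nhds (x := z))
        simpa using this
    have : infDist z (T z).1 ≤ 0 + 0 := ge_of_tendsto' hlim hle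
    have h0 : 0 ≤ infDist z (T z).1 := infDist_nonneg
    linarith
  exact hno z (((T z).2.2.1.mem_iff_infDist_zero (T z).2.1).2 hinf)

end Pool.Agent.Results.MP_e93574_an.WeaklyContractive
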